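import Mathlib
import Pool.Agent.Helper90.SlowRefresh.Defs
import Pool.Agent.Helper90.SlowRefresh.ExistFinal

/-!
Biased walk on dynamical conductances: the speed with refresh rate `μ` converges to the static
speed as `μ → 0+`, for every dimension `d + 1 ≥ 1`, every uniformly elliptic law `q` on `[c, κ]`
and every bias `lam > 0`.
-/

open MeasureTheory ProbabilityTheory Filter Topology
open Pool.Agent.Helper90.SlowRefresh

namespace Pool.Agent.Results.MP_fa7dd9_pr.SlowRefreshSpeed

/-- Both speeds exist and are unique, and the dynamic speed tends to the static speed as the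
refresh rate tends to zero. -/
theorem result (d : ℕ) (q : Measure ℝ) [IsProbabilityMeasure q] (c κ : ℝ) (hc : 0 < c)
    (hq : ∀ᵐ x ∂q, x ∈ Set.Icc c κ) (lam : ℝ) (hlam : 0 < lam) :
    ∃ (v : ℝ → ℝ) (vst : ℝ),
      (∀ μ : ℝ, 0 < μ → ∀ w : ℝ, IsDynamicSpeed d q κ lam μ w ↔ w = v μ) ∧
      (∀ w : ℝ, IsStaticSpeed d q κ lam w ↔ w = vst) ∧
      Tendsto v (𝓝[>] (0 : ℝ)) (𝓝 vst) := by
  have hck : c ≤ κ := by
    obtain ⟨x, hx⟩ := hq.exists
    exact hx.1.trans hx.2
  exact Par.full (d := d) ⟨q, inferInstance, c, κ, lam, hc, hck, hlam⟩ hq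

end Pool.Agent.Results.MP_fa7dd9_pr.SlowRefreshSpeed
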